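import Pool.Agent.Lib.SmN.H.Coc
import Pool.Agent.Lib.SmN.P.Weil

/-!
Project HEIGHTS over SMITH-U (MP_48b749_nt), block C, module LeibE: the Leibniz rule for alternating
sums of a biadditive form, and its version for the cocycle `e (f Q) (s * g Q)` with the twisted action
at the vertex `Q`.
-/

set_option autoImplicit false

open Finset

namespace Pool.Agent.SmNH

open Pool.Agent.SmN

section

variable {I : Type*} [DecidableEq I] {X Y M : Type*} [AddCommGroup X] [AddCommGroup Y]
  [AddCommGroup M]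

/-- Leibniz rule: `A_U (f g) = ∑ W ⊆ U, A_W f |_(U \ W = 1) * A_(U \ W) g |_(W = 0)`. -/
theorem leib (B : X →+ Y →+ M) (f : Finset I → X) (g : Finset I → Y) (U P : Finset I) :
    alt U (fun Q => B (f Q) (g Q)) P =
      ∑ W ∈ U.powerset, B (alt W f (P ∪ (U \ W))) (alt (U \ W) g P) := by
  induction U using Finset.induction_on generalizing P with
  | empty => simp
  | insert i U hi ih =>
    rw [alt_insert hi, ih P, ih (insert i P), Finset.sum_powerset_insert hi,
      ← Finset.sum_sub_distrib, ← Finset.sum_add_distrib]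
    apply Finset.sum_congr rfl
    intro W hW
    have hWU : W ⊆ U := Finset.mem_powerset.1 hW
    have hiW : i ∉ W := fun h => hi (hWU h)
    have hiUW : i ∉ U \ W := fun h => hi (Finset.mem_sdiff.1 h).1
    have e1 : insert i U \ W = insert i (U \ W) := Finset.insert_sdiff_of_notMem U hiW
    have e2 : insert i U \ insert i W = U \ W := by
      ext x
      simp only [Finset.mem_sdiff, Finset.mem_insert, not_or]
      constructor
      · rintro ⟨h7 | h7, h8, h9⟩
        · exact absurd h7 h8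
        · exact ⟨h7, h9⟩
      · rintro ⟨h7, h8⟩
        exact ⟨Or.inr h7, fun h9 => hi (h9 ▸ h7), h8⟩
    have e3 : P ∪ insert i (U \ W) = insert i P ∪ (U \ W) := by
      rw [Finset.union_insert, Finset.insert_union]
    have e4 : insert i (P ∪ (U \ W)) = insert i P ∪ (U \ W) := by rw [Finset.insert_union]
    rw [e1, e2, e3, alt_insert hiUW, alt_insert hiW, e4, map_sub, map_sub, AddMonoidHom.sub_apply]
    abel

/-- A value which is killed by `2^i` as an element of `V[2^i]`. -/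
noncomputable def toTor {V : Type*} [AddCommGroup V] (i : ℕ) (x : V) : Tor V i :=
  open Classical in if h : (2 : ℕ) ^ i • x = 0 then ⟨x, h⟩ else 0

theorem toTor_coe {V : Type*} [AddCommGroup V] {i : ℕ} {x : V} (h : (2 : ℕ) ^ i • x = 0) :
    ((toTor i x : Tor V i) : V) = x := by
  rw [toTor, dif_pos h]

theorem alt_coe {V : Type*} [AddCommGroup V] {i : ℕ} (f : Finset I → Tor V i) (U P : Finset I) :
    ((alt U f P : Tor V i) : V) = alt U (fun Q => (f Q : V)) P :=
  (alt_map (Tor V i).subtype U f P).symm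

theorem alt_toTor {V : Type*} [AddCommGroup V] {i : ℕ} {f : Finset I → V} {U P : Finset I}
    (h : ∀ T, T ⊆ U → (2 : ℕ) ^ i • f (P ∪ T) = 0) :
    ((alt U (fun Q => toTor i (f Q)) P : Tor V i) : V) = alt U f P := by
  rw [alt_coe]
  apply alt_congr
  intro T hT
  exact toTor_coe (h T hT)

theorem pow_alt {V : Type*} [AddCommGroup V] {i : ℕ} {f : Finset I → V} {U P : Finset I}
    (h : ∀ T, T ⊆ U → (2 : ℕ) ^ i • f (P ∪ T) = 0) : (2 : ℕ) ^ i • alt U f P = 0 := by
  rw [← alt_nsmul]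
  have : alt U (fun T => (2 : ℕ) ^ i • f T) P = alt U (fun _ => (0 : V)) P := alt_congr h
  rw [this, alt_zero]

end

section

variable {G V V1 Pl M I : Type*} [Group G] [AddCommGroup V] [DistribMulAction G V]
  [AddCommGroup V1] [Module (ZMod 2) V1] [AddCommGroup M]
  [DistribMulAction G M] {S : Sys G V V1 Pl} {e : ℕ → V → V → M} {j : ZMod 2 →+ M}
  [DecidableEq I]

/-- Leibniz rule for the pairing `e i` on `V[2^i]`. -/
theorem leib_e (hw : Weil S e j) {i : ℕ} (f g : Finset I → V) (U P : Finset I)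
    (hf : ∀ T, T ⊆ U → (2 : ℕ) ^ i • f (P ∪ T) = 0)
    (hg : ∀ T, T ⊆ U → (2 : ℕ) ^ i • g (P ∪ T) = 0) :
    alt U (fun Q => e i (f Q) (g Q)) P =
      ∑ W ∈ U.powerset, e i (alt W f (P ∪ (U \ W))) (alt (U \ W) g P) := by
  have h1 : alt U (fun Q => e i (f Q) (g Q)) P =
      alt U (fun Q => hw.B i (toTor i (f Q)) (toTor i (g Q))) P := by
    apply alt_congr
    intro T hT
    rw [hw.B_apply, toTor_coe (hf T hT), toTor_coe (hg T hT)]
  rw [h1, leib]
  apply Finset.sum_congr rfl
  intro W hW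
  have hWU : W ⊆ U := Finset.mem_powerset.1 hW
  rw [hw.B_apply, alt_toTor, alt_toTor]
  · intro T hT
    exact hg T (hT.trans Finset.sdiff_subset)
  · intro T hT
    rw [Finset.union_assoc]
    exact hf _ (Finset.union_subset Finset.sdiff_subset (hT.trans hWU))

theorem e_nsmul_right (hw : Weil S e j) {i : ℕ} {x y : V} (hx : (2 : ℕ) ^ i • x = 0)
    (hy : (2 : ℕ) ^ i • y = 0) (n : ℕ) : e i x (n • y) = n • e i x y := by
  have h : hw.B i ⟨x, hx⟩ (n • ⟨y, hy⟩) = n • hw.B i ⟨x, hx⟩ ⟨y, hy⟩ := map_nsmul _ _ _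
  exact h

theorem e_sum_right (hw : Weil S e j) {i : ℕ} {x : V} (hx : (2 : ℕ) ^ i • x = 0) {K : Type*}
    (s : Finset K) (y : K → V) (hy : ∀ k ∈ s, (2 : ℕ) ^ i • y k = 0) :
    e i x (∑ k ∈ s, y k) = ∑ k ∈ s, e i x (y k) := by
  classical
  induction s using Finset.induction_on with
  | empty => simp [hw.zero_right hx]
  | insert k s hk ih =>
    rw [Finset.sum_insert hk, Finset.sum_insert hk, hw.add_right i x _ _ hx
      (hy k (Finset.mem_insert_self k s)) (by
        rw [Finset.smul_sum]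
        exact Finset.sum_eq_zero fun l hl => hy l (Finset.mem_insert_of_mem hl)),
      ih fun l hl => hy l (Finset.mem_insert_of_mem hl)]

/-- Expansion of the alternating sum of the cocycles `e (f Q) (s * g Q)`. -/
theorem alt_cupE (hw : Weil S e j) (chi0 : G → ZMod 2) (del : I → G → ZMod 2) (s : G) {i : ℕ}
    (f g : Finset I → V) (U P : Finset I) (hUP : Disjoint U P)
    (hf : ∀ T, T ⊆ U → (2 : ℕ) ^ i • f (P ∪ T) = 0)
    (hg : ∀ T, T ⊆ U → (2 : ℕ) ^ i • g (P ∪ T) = 0) :
    alt U (fun Q => e i (f Q) (tw (chiC chi0 del Q) s (g Q))) P =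
      ∑ W ∈ U.powerset, ∑ T ∈ (U \ W).powerset, (pdel del T s).val •
        e i (alt W f (P ∪ (U \ W)))
          (tw (chiC chi0 del P) s ((2 : ℕ) ^ T.card • alt ((U \ W) \ T) g (P ∪ T))) := by
  rw [leib_e hw f (fun Q => tw (chiC chi0 del Q) s (g Q)) U P hf
    (fun T hT => pow_smul_tw _ s (hg T hT))]
  apply Finset.sum_congr rfl
  intro W hW
  have hWU : W ⊆ U := Finset.mem_powerset.1 hW
  have hx : (2 : ℕ) ^ i • alt W f (P ∪ (U \ W)) = 0 := by
    apply pow_alt
    intro T hT
    rw [Finset.union_assoc]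
    exact hf _ (Finset.union_subset Finset.sdiff_subset (hT.trans hWU))
  have hy : ∀ T ∈ (U \ W).powerset, (2 : ℕ) ^ i • tw (chiC chi0 del P) s
      ((2 : ℕ) ^ T.card • alt ((U \ W) \ T) g (P ∪ T)) = 0 := by
    intro T hT
    have hTU := Finset.mem_powerset.1 hT
    apply pow_smul_tw
    rw [smul_comm]
    have : (2 : ℕ) ^ i • alt ((U \ W) \ T) g (P ∪ T) = 0 := by
      apply pow_alt
      intro R hR
      rw [Finset.union_assoc]
      exact hg _ (Finset.union_subset (hTU.trans Finset.sdiff_subset)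
        ((hR.trans Finset.sdiff_subset).trans Finset.sdiff_subset))
    rw [this, smul_zero]
  rw [alt_tw chi0 del g s (U \ W) P (hUP.mono_left Finset.sdiff_subset)]
  have h1 : tw (chiC chi0 del P) s (∑ T ∈ (U \ W).powerset, (2 ^ T.card * (pdel del T s).val) •
      alt ((U \ W) \ T) g (P ∪ T)) = ∑ T ∈ (U \ W).powerset, (pdel del T s).val •
        tw (chiC chi0 del P) s ((2 : ℕ) ^ T.card • alt ((U \ W) \ T) g (P ∪ T)) := by
    rw [← twHom_apply, map_sum]
    apply Finset.sum_congr rfl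
    intro T _
    rw [mul_comm, mul_smul, map_nsmul]
    rfl
  rw [h1, e_sum_right hw hx _ _ (fun T hT => by rw [smul_comm, hy T hT, smul_zero])]
  apply Finset.sum_congr rfl
  intro T hT
  exact e_nsmul_right hw hx (hy T hT) _

/-- Vanishing of the alternating sum by the exponents. -/
theorem alt_cupE_eq_zero (hw : Weil S e j) (chi0 : G → ZMod 2) (del : I → G → ZMod 2) (s : G)
    {i : ℕ} (f g : Finset I → V) (U P : Finset I) (hUP : Disjoint U P)
    (hf : ∀ T, T ⊆ U → (2 : ℕ) ^ i • f (P ∪ T) = 0)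
    (hg : ∀ T, T ⊆ U → (2 : ℕ) ^ i • g (P ∪ T) = 0)
    (h : ∀ W T, W ⊆ U → T ⊆ U \ W → ∃ a b, a + b ≤ i ∧
      (2 : ℕ) ^ a • alt W f (P ∪ (U \ W)) = 0 ∧
      (2 : ℕ) ^ b • ((2 : ℕ) ^ T.card • alt ((U \ W) \ T) g (P ∪ T)) = 0) :
    alt U (fun Q => e i (f Q) (tw (chiC chi0 del Q) s (g Q))) P = 0 := by
  rw [alt_cupE hw chi0 del s f g U P hUP hf hg]
  apply Finset.sum_eq_zero
  intro W hW
  apply Finset.sum_eq_zero
  intro T hT
  obtain ⟨a, b, hab, h1, h2⟩ := h W T (Finset.mem_powerset.1 hW) (Finset.mem_powerset.1 hT)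
  rw [hw.small hab h1 (pow_smul_tw _ s h2), smul_zero]

end

end Pool.Agent.SmNH
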