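import Pool.Agent.Lib.SmNH.C.TopAux

/-!
Project HEIGHTS over SMITH-U (MP_48b749_nt), block C, module TopQ: 4.1, the top sum of the height forms.
-/

set_option autoImplicit false

open Finset

namespace Pool.Agent.SmNH

open Pool.Agent.SmN

section

variable {G V V1 Pl M I : Type*} [Group G] [AddCommGroup V] [DistribMulAction G V]
  [AddCommGroup V1] [Module (ZMod 2) V1] [AddCommGroup M] [DistribMulAction G M]
  {S : Sys G V V1 Pl} {H : HData V M Pl} [DecidableEq I] [Fintype I]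
  {chi0 : G → ZMod 2} {del : I → G → ZMod 2} {pl : I → Bool → Pl}

/-- The local terms at a bad place: they cancel the value of `F`. -/
theorem alt_rhoQ_bad (hS : S.Ok) (hH : HOk S H) (hC : CubeOk S chi0 del pl) {n : ℕ} (hn : 1 ≤ n)
    {ia : I} {y : Finset I → (G → V) × (Pl → V)}
    (hy : ∀ P, IsPr S (chiC chi0 del P) (n + 1) (y P))
    (h2 : ∀ s, (2 : ℕ) • alt univ (fun T => (y T).1 s) ∅ = 0)
    {z0 zb : G → V1} (hz : TopFam.TopZ S n ia (fun P => (y P).1) z0 zb)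
    {v : Pl} (hv : v ∉ S.good) (hbad : ∀ P, (2 : ℕ) • (y P).2 v = (2 : ℕ) • (y ∅).2 v) :
    alt univ (fun P => rhoQ H (chiC chi0 del P) (n + 1) ((y P).2 v) (S.sg v)) ∅ =
      H.j (FF S (fun P => (y P).1) ia z0 zb (S.sg v)) := by
  set t : G := S.sg v with ht
  have htD : t ∈ S.D v := hS.sg_mem v
  have hyt : ∀ P, (y P).1 t = dl (chiC chi0 del ∅) ((y P).2 v) t := fun P => by
    rw [(hy P).loc v hv t htD, dl_congr (bad_chi hC hv P ∅ t htD)]
  have hR : ∀ P, (2 : ℕ) • ((y P).2 v - (y ∅).2 v) = 0 := fun P => by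
    rw [smul_sub, hbad, sub_self]
  have hlev : (2 : ℕ) ^ (n + 1) • dl (chiC chi0 del ∅) ((y ∅).2 v) t = 0 := by
    rw [← hyt ∅]
    exact (hy ∅).sel.lev t
  have hz0 : S.un ((2 : ℕ) ^ n • (y ∅).1 t) = z0 t := by
    rw [hz ∅ t, if_neg (Finset.notMem_empty ia), add_zero, Sys.un_iota hS]
  -- the value at one vertex
  have h1 : ∀ P, rhoQ H (chiC chi0 del P) (n + 1) ((y P).2 v) t =
      rhoQ H (chiC chi0 del ∅) (n + 1) ((y ∅).2 v) t +
        H.j (S.e (S.ac t (S.un ((y P).2 v - (y ∅).2 v)) - S.un ((y P).2 v - (y ∅).2 v)) (z0 t)) := by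
    intro P
    have e0 : (y P).2 v = (y ∅).2 v + ((y P).2 v - (y ∅).2 v) := by abel
    rw [rhoQ_congr_chi H (bad_chi hC hv P ∅ t htD), rhoQ_eq_bt, rhoQ_eq_bt]
    conv_lhs => rw [e0]
    rw [bt_add_iota2 hS hH.weil (hH.sgM v) (by omega) (hR P) hlev,
      Sys.dl_of_two hS _ _ (hR P), e_iota_left hS hH.weil _ hlev, ← hyt ∅, hz0]
  have h3 : alt univ (fun P => rhoQ H (chiC chi0 del P) (n + 1) ((y P).2 v) t) ∅ =
      alt univ (fun P => rhoQ H (chiC chi0 del ∅) (n + 1) ((y ∅).2 v) t +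
        H.j (S.e (S.ac t (S.un ((y P).2 v - (y ∅).2 v)) - S.un ((y P).2 v - (y ∅).2 v))
          (z0 t))) ∅ := alt_congr fun T _ => h1 _
  rw [h3, alt_add, alt_const (U := univ) ⟨ia, Finset.mem_univ ia⟩, zero_add]
  have h4 := alt_map H.j univ (fun P => S.e (S.ac t (S.un ((y P).2 v - (y ∅).2 v)) -
    S.un ((y P).2 v - (y ∅).2 v)) (z0 t)) ∅
  rw [h4]
  congr 1
  have h5 := alt_map ((S.e.flip (z0 t)).toAddMonoidHom) univ
    (fun P => S.ac t (S.un ((y P).2 v - (y ∅).2 v)) - S.un ((y P).2 v - (y ∅).2 v)) ∅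
  change alt univ (fun P => S.e (S.ac t (S.un ((y P).2 v - (y ∅).2 v)) -
    S.un ((y P).2 v - (y ∅).2 v)) (z0 t)) ∅ = S.e (alt univ (fun P =>
      S.ac t (S.un ((y P).2 v - (y ∅).2 v)) - S.un ((y P).2 v - (y ∅).2 v)) ∅) (z0 t) at h5
  rw [h5]
  have h6 : alt univ (fun P => S.ac t (S.un ((y P).2 v - (y ∅).2 v)) -
      S.un ((y P).2 v - (y ∅).2 v)) ∅ = TopFam.Om S (fun P => (y P).1) univ ∅ t := by
    apply hS.iota_inj
    rw [TopFam.iota_om hS (h2 t), ← alt_map]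
    have e1 : alt univ (fun Q => S.iota (S.ac t (S.un ((y Q).2 v - (y ∅).2 v)) -
        S.un ((y Q).2 v - (y ∅).2 v))) ∅ =
        alt univ (fun Q => (y Q).1 t - (y ∅).1 t) ∅ := by
      apply alt_congr
      intro T _
      rw [← Sys.dl_of_two hS (chiC chi0 del ∅) t (hR _), dl_sub, hyt, hyt ∅]
    rw [e1, alt_sub, alt_const (U := univ) ⟨ia, Finset.mem_univ ia⟩, sub_zero]
  have h7 : zb t = 0 := by
    apply hS.iota_inj
    have e1 := hz {ia} t
    have e2 := hz ∅ t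
    rw [if_pos (Finset.mem_singleton_self ia), map_add] at e1
    rw [if_neg (Finset.notMem_empty ia), add_zero] at e2
    have e3 : S.iota (zb t) = (2 : ℕ) ^ n • (y {ia}).1 t - (2 : ℕ) ^ n • (y ∅).1 t := by
      rw [e1, e2, add_sub_cancel_left]
    rw [e3, ← smul_sub, hyt, hyt, ← dl_sub, ← dl_nsmul, map_zero]
    obtain ⟨m, rfl⟩ : ∃ m, n = m + 1 := ⟨n - 1, by omega⟩
    rw [pow_succ, mul_smul, hR, smul_zero, dl_zero]
  rw [h6]
  unfold FF
  rw [h7, map_zero, LinearMap.zero_apply, add_zero]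

omit [Group G] [Fintype I] [Module (ZMod 2) V1] in
/-- An affine family with differences only in one direction. -/
theorem bC_single (b0 : G → V1) {bet : I → G → V1} {i : I} (hb : ∀ l, l ≠ i → ∀ s, bet l s = 0)
    (P : Finset I) (s : G) :
    bC b0 bet P s = b0 s + if i ∈ P then bet i s else 0 := by
  unfold bC
  congr 1
  by_cases hi : i ∈ P
  · rw [if_pos hi]
    apply Finset.sum_eq_single i
    · intro l _ hl
      exact hb l hl s
    · exact fun h => absurd hi h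
  · rw [if_neg hi]
    apply Finset.sum_eq_zero
    intro l hl
    exact hb l (fun h => hi (h ▸ hl)) s

/-- **4.1: the top sum of the height forms.** -/
theorem top_q (hS : S.Ok) (hH : HOk S H) (hC : CubeOk S chi0 del pl) {n : ℕ} (hn : 1 ≤ n)
    (hI : Fintype.card I = n + 2) {ia ib : I} (hab : ia ≠ ib)
    {y : Finset I → (G → V) × (Pl → V)}
    (hy : ∀ P, IsPr S (chiC chi0 del P) (n + 1) (y P))
    (hm : ∀ U P, Disjoint U P → Disjoint U {ia} → U.Nonempty → U.card ≤ n →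
      Mn n (fun P s => (2 : ℕ) • (y P).1 s) U P)
    (hbad : ∀ v, v ∉ S.good → ∀ P, (2 : ℕ) • (y P).2 v = (2 : ℕ) • (y ∅).2 v)
    {z0 : G → V1} {zet : I → G → V1} (hzB : BetOk S chi0 del pl zet)
    (hzv : ∀ i, i ≠ ia → ∀ s, zet i s = 0)
    (hz : ∀ P s, (2 : ℕ) ^ n • (y P).1 s = S.iota (bC z0 zet P s))
    {w0 : G → V1} {wet : I → G → V1} (hwB : BetOk S chi0 del pl wet)
    (hwv : ∀ i, i ≠ ib → ∀ s, wet i s = 0) (hw : S.CocG w0)
    (hwl : ∀ P, ∀ v ∈ S.good, S.loc v (bC w0 wet P) -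
      (0, (H.deg v : ZMod 2) • bC z0 zet P (S.sg v)) ∈ S.Wl (chiC chi0 del P) v)
    {Th : G → V1} (htf : S.TF Th)
    (hrel : ThRel S n del (fun P s => (2 : ℕ) • (y P).1 s) (univ.erase ib) Th)
    (hunr : ∀ v ∈ S.good, Th (S.sg v) = 0) :
    alt univ (fun P => q S H (chiC chi0 del P) (n + 1) (y P)) ∅ =
      H.j (S.e (Th (S.phi (pl ib false))) (wet ib (S.sg (pl ib false))) +
        S.e (Th (S.phi (pl ib true))) (wet ib (S.sg (pl ib true)))) := by
  classical
  have hchi : ∀ P, S.HomG (chiC chi0 del P) := chiC_hom hS hC.chi0_hom hC.del_hom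
  choose rho hrho using fun P => exists_rho hS hH (hchi P) (hy P).sel
  have hfam : TopFam chi0 del n ia (fun P => (y P).1) :=
    ⟨hn, hI, fun P => (hy P).sel.coc, fun P => (hy P).sel.lev, hm⟩
  have hz' : TopFam.TopZ S n ia (fun P => (y P).1) z0 (zet ia) := by
    intro P s
    rw [hz P s, bC_single z0 hzv]
  have hloc : TopFam.LocH S chi0 del pl n ia ib (fun P => (y P).1)
      (fun v => (H.deg v : ZMod 2)) z0 (zet ia) w0 (wet ib) := by
    refine ⟨hS, hC, hab, hfam, fun P v => (hy P).sel.loc v, ?_, hz', ?_, ?_, hw, hwB.coc ib,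
      ?_, ?_, ?_⟩
    · intro v hv
      exact ⟨fun P => (y P).2 v, fun P s hs => (hy P).loc v hv s hs, fun P => hbad v hv P⟩
    · intro i e hi
      exact hzB.D i e ia (Ne.symm hi) _ (hS.sg_mem _)
    · intro v hv hex
      rcases hzB.other v hex with ⟨_, h2⟩ | ⟨_, _, _, h4⟩
      · obtain ⟨z, h3⟩ := h2 ia
        rw [h3 _ (hS.sg_mem v), Sys.ac_sg hS hv]
        exact sub_self z
      · exact h4 ia
    · intro i e hi
      exact hwB.D i e ib (Ne.symm hi)
    · intro v hex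
      rcases hwB.other v hex with ⟨_, h2⟩ | ⟨h1, h2, h3, h4⟩
      · exact Or.inl (h2 ib)
      · exact Or.inr ⟨h1, h2, h3, h4 ib⟩
    · intro P v hv
      have h1 := hwl P v hv
      rw [bC_single z0 hzv] at h1
      have h2 : S.loc v (bC w0 wet P) =
          S.loc v (fun s => w0 s + if ib ∈ P then wet ib s else 0) :=
        Prod.ext (bC_single w0 hwv P _) (bC_single w0 hwv P _)
      rwa [h2] at h1
  rw [alt_q hS hH hC hy hrho]
  refine TopFam.LocH.top_rho hH hloc (fun P => (hy P).sel.tf) hrho (fun v => ?_) htf hrel hunr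
  by_cases hv : v ∈ S.good
  · rw [if_pos hv]
    exact alt_rhoQ_good hS hH hy hv
  · rw [if_neg hv]
    exact alt_rhoQ_bad hS hH hC hn hy hfam.two_top hz' hv (hbad v hv)

end

end Pool.Agent.SmNH
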