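import Pool.Agent.Lib.SmNH.C.Exact

/-!
Project HEIGHTS over SMITH-U (MP_48b749_nt), block C, module ExactF: 4.1 (a), the exact formula.
-/

set_option autoImplicit false

open Finset

namespace Pool.Agent.SmNH

open Pool.Agent.SmN

section

variable {G V V1 Pl M I : Type*} [Group G] [AddCommGroup V] [DistribMulAction G V]
  [AddCommGroup V1] [Module (ZMod 2) V1] [AddCommGroup M]
  [DistribMulAction G M] {S : Sys G V V1 Pl} {e : ℕ → V → V → M} {j : ZMod 2 →+ M}
  [DecidableEq I] [Fintype I]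
  {chi0 : G → ZMod 2} {del : I → G → ZMod 2} {n : ℕ} {ia : I} {y : Finset I → G → V}

/-- The primitive of the alternating sum of the cup squares. -/
noncomputable def FF (S : Sys G V V1 Pl) (y : Finset I → G → V) (ia : I)
    (z0 zb : G → V1) (s : G) : ZMod 2 :=
  S.e (TopFam.Om S y univ ∅ s) (z0 s) + S.e (zb s) (TopFam.Om S y (univ.erase ia) {ia} s)

namespace TopFam

/-- The top part of the family. -/
def TopZ (S : Sys G V V1 Pl) (n : ℕ) (ia : I) (y : Finset I → G → V) (z0 zb : G → V1) : Prop :=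
  ∀ P s, (2 : ℕ) ^ n • y P s = S.iota (z0 s + if ia ∈ P then zb s else 0)

omit [Fintype I] in
theorem iota_om (hS : S.Ok) {U P : Finset I} {s : G}
    (h2 : (2 : ℕ) • alt U (fun T => y T s) P = 0) :
    S.iota (Om S y U P s) = alt U (fun T => y T s) P := Sys.iota_un hS h2

omit [Fintype I] in
/-- The twisted action on the alternating sums of order two. -/
theorem tw_om (hS : S.Ok) (chi : G → ZMod 2) (s : G) {U P : Finset I} {t : G}
    (h2 : (2 : ℕ) • alt U (fun T => y T t) P = 0) :
    tw chi s (alt U (fun T => y T t) P) = S.iota (S.ac s (Om S y U P t)) :=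
  Sys.tw_of_two hS chi s h2

theorem om_split (hS : S.Ok) (h : TopFam chi0 del n ia y) (s : G) :
    Om S y univ ∅ s = Om S y (univ.erase ia) ∅ s + Om S y (univ.erase ia) {ia} s := by
  apply hS.iota_inj
  rw [map_add, iota_om hS (h.two_top s), iota_om hS (h.two_side (Finset.empty_subset _) s),
    iota_om hS (h.two_side (Finset.Subset.refl _) s), alt_of_mem (Finset.mem_univ ia),
    sub_eq_add_neg, Sys.neg_of_two (h.two_side (by simp) s)]
  rfl

theorem zn_mul (hS : S.Ok) (h : TopFam chi0 del n ia y) {z0 zb : G → V1}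
    (hz : TopZ S n ia y z0 zb) (P : Finset I) (s t : G) :
    (z0 (s * t) + if ia ∈ P then zb (s * t) else 0) =
      (z0 s + if ia ∈ P then zb s else 0) + S.ac s (z0 t + if ia ∈ P then zb t else 0) := by
  apply hS.iota_inj
  rw [← hz P (s * t), map_add, ← hz P s, h.coc, smul_add, ← tw_nsmul,
    Sys.tw_of_two hS _ _ (h.two_zn P t), hz P t, Sys.un_iota hS]

theorem z0_mul (hS : S.Ok) (h : TopFam chi0 del n ia y) {z0 zb : G → V1}
    (hz : TopZ S n ia y z0 zb) (s t : G) : z0 (s * t) = z0 s + S.ac s (z0 t) := by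
  have h0 := zn_mul hS h hz ∅ s t
  simpa using h0

theorem zb_mul (hS : S.Ok) (h : TopFam chi0 del n ia y) {z0 zb : G → V1}
    (hz : TopZ S n ia y z0 zb) (s t : G) : zb (s * t) = zb s + S.ac s (zb t) := by
  have h1 := zn_mul hS h hz {ia} s t
  rw [if_pos (Finset.mem_singleton_self ia), if_pos (Finset.mem_singleton_self ia),
    if_pos (Finset.mem_singleton_self ia), z0_mul hS h hz s t, map_add] at h1
  have h2 : z0 s + S.ac s (z0 t) + zb (s * t) =
      z0 s + S.ac s (z0 t) + (zb s + S.ac s (zb t)) := by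
    rw [h1]; abel
  exact add_left_cancel h2

omit [Fintype I] in
theorem alt_ia_zn {z0 zb : G → V1}
    (hz : TopZ S n ia y z0 zb) {P : Finset I} (hP : ia ∉ P) (s : G) :
    (2 : ℕ) ^ n • alt {ia} (fun Q => y Q s) P = S.iota (zb s) := by
  rw [alt_singleton, smul_sub, hz P s, hz (insert ia P) s, if_neg hP,
    if_pos (Finset.mem_insert_self ia P), add_zero, map_add, sub_add_cancel_left]
  exact Sys.neg_iota S _

/-- 4.1 (a): the exact formula. -/
theorem exact (hS : S.Ok) (hw : Weil S e j) (h : TopFam chi0 del n ia y)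
    {z0 zb : G → V1} (hz : TopZ S n ia y z0 zb) (s t : G) :
    alt univ (fun Q => e (n + 1) (y Q s) (tw (chiC chi0 del Q) s (y Q t))) ∅ =
      j (FF S y ia z0 zb s) + j (FF S y ia z0 zb t) - j (FF S y ia z0 zb (s * t)) := by
  rw [h.four hw s t]
  have hia : ia ∉ (univ.erase ia : Finset I) := Finset.notMem_erase ia _
  have hl : ∀ {P : Finset I} (s : G), (2 : ℕ) ^ (n + 1) • alt {ia} (fun Q => y Q s) P = 0 :=
    fun {P} s => pow_alt fun T _ => h.lev _ s
  -- term 1
  have t1 : e (n + 1) (y univ s) (tw chi0 s (alt univ (fun Q => y Q t) ∅)) =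
      j (S.e (z0 s + zb s) (S.ac s (Om S y univ ∅ t))) := by
    rw [tw_om hS _ _ (h.two_top t), e_iota_right hS hw _ (h.lev univ s), hz univ s,
      if_pos (Finset.mem_univ ia), Sys.un_iota hS]
  -- term 2
  have t2 : e (n + 1) (alt {ia} (fun Q => y Q s) (univ.erase ia))
        (tw chi0 s (alt (univ.erase ia) (fun Q => y Q t) ∅)) =
      j (S.e (zb s) (S.ac s (Om S y (univ.erase ia) ∅ t))) := by
    rw [tw_om hS _ _ (h.two_side (Finset.empty_subset _) t), e_iota_right hS hw _ (hl s),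
      alt_ia_zn hz hia s, Sys.un_iota hS]
  -- term 3
  have t3 : e (n + 1) (alt (univ.erase ia) (fun Q => y Q s) {ia})
        (tw chi0 s (alt {ia} (fun Q => y Q t) ∅)) =
      j (S.e (Om S y (univ.erase ia) {ia} s) (S.ac s (zb t))) := by
    rw [← iota_om hS (h.two_side (Finset.Subset.refl _) s),
      e_iota_left hS hw _ (pow_smul_tw _ s (hl t)), ← tw_nsmul,
      alt_ia_zn hz (Finset.notMem_empty ia) t, Sys.tw_iota hS, Sys.un_iota hS]
  -- term 4
  have t4 : e (n + 1) (alt univ (fun Q => y Q s) ∅) (tw chi0 s (y ∅ t)) =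
      j (S.e (Om S y univ ∅ s) (S.ac s (z0 t))) := by
    rw [← iota_om hS (h.two_top s), e_iota_left hS hw _ (pow_smul_tw _ s (h.lev ∅ t)), ← tw_nsmul,
      hz ∅ t, if_neg (Finset.notMem_empty ia), add_zero, Sys.tw_iota hS, Sys.un_iota hS]
  rw [t1, t2, t3, t4, ← map_add, ← map_add, ← map_add, ← map_add, ← map_sub]
  congr 1
  unfold FF
  rw [h.om_top_mul hS s t, h.om_side_mul hS (Finset.Subset.refl _) s t, z0_mul hS h hz s t,
    zb_mul hS h hz s t, om_split hS h t, om_split hS h s]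
  generalize Om S y (univ.erase ia) ∅ s = A
  generalize Om S y (univ.erase ia) ∅ t = B
  generalize Om S y (univ.erase ia) {ia} s = C
  generalize Om S y (univ.erase ia) {ia} t = D
  simp only [map_add, LinearMap.add_apply, hS.e_inv]
  rw [e_comm hS.e_alt (z0 s) (S.ac s B), e_comm hS.e_alt (z0 s) (S.ac s D),
    e_comm hS.e_alt C (S.ac s (zb t))]
  have h2 : (2 : ZMod 2) = 0 := rfl
  linear_combination (S.e (S.ac s B) (z0 s) + S.e (S.ac s D) (z0 s) + S.e (zb s) (S.ac s B) +
    S.e (zb s) (S.ac s D) + S.e A (S.ac s (z0 t)) + S.e C (S.ac s (z0 t)) +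
    S.e (S.ac s (zb t)) C) * h2

end TopFam

end

end Pool.Agent.SmNH
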